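import Pool.Agent.W875.GE.Spec

set_option autoImplicit false

namespace Pool.Agent.W174.GE

universe u

open TensorProduct MulOpposite W875.GE

section

variable {K : Type u} [Field K] {n : ℕ}

/-- left multiplication by `a ⊗ 1` and by `1 ⊗ op x` -/
noncomputable def rx : FA K n →ₗ[K] RR K n :=
  (TensorProduct.mk K (FA K n) (FA K n)ᵐᵒᵖ 1) ∘ₗ (MulOpposite.opLinearEquiv K).toLinearMap

theorem rx_apply (x : FA K n) : rx x = (1 : FA K n) ⊗ₜ[K] op x := rfl

noncomputable def gen (i j : Fin n) : Module.End K (RR K n × FA K n) :=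
  LinearMap.prod
    ((LinearMap.mulLeft K ((FreeAlgebra.ι K j) ⊗ₜ[K] (1 : (FA K n)ᵐᵒᵖ) : RR K n)) ∘ₗ
        LinearMap.fst K (RR K n) (FA K n) +
      (if i = j then (1 : K) else 0) • (rx ∘ₗ LinearMap.snd K (RR K n) (FA K n)))
    ((LinearMap.mulLeft K (FreeAlgebra.ι K j)) ∘ₗ LinearMap.snd K (RR K n) (FA K n))

theorem gen_apply (i j : Fin n) (m : RR K n) (x : FA K n) :
    gen i j (m, x) = (((FreeAlgebra.ι K j) ⊗ₜ[K] (1 : (FA K n)ᵐᵒᵖ) : RR K n) * m +
      (if i = j then (1 : K) else 0) • ((1 : FA K n) ⊗ₜ[K] op x), FreeAlgebra.ι K j * x) := rfl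

noncomputable def TT (i : Fin n) : FA K n →ₐ[K] Module.End K (RR K n × FA K n) :=
  FreeAlgebra.lift K (gen i)

noncomputable def dd (i : Fin n) : FA K n →ₗ[K] RR K n :=
  LinearMap.fst K (RR K n) (FA K n) ∘ₗ (LinearMap.applyₗ ((0 : RR K n), (1 : FA K n))) ∘ₗ
    (TT i).toLinearMap

theorem dd_apply (i : Fin n) (a : FA K n) : dd i a = (TT i a (0, 1)).1 := rfl

theorem TT_apply (i : Fin n) (a : FA K n) : ∀ (m : RR K n) (x : FA K n),
    TT i a (m, x) = ((a ⊗ₜ[K] (1 : (FA K n)ᵐᵒᵖ) : RR K n) * m +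
      ((1 : FA K n) ⊗ₜ[K] op x) * dd i a, a * x) := by
  induction a using FreeAlgebra.induction with
  | grade0 c =>
    intro m x
    have h : TT i (algebraMap K (FA K n) c) = algebraMap K _ c := AlgHom.commutes _ _
    have hd : dd i (algebraMap K (FA K n) c) = 0 := by
      rw [dd_apply, h]
      simp [Module.algebraMap_end_apply]
    rw [hd, h, Module.algebraMap_end_apply, mul_zero, add_zero]
    have h2 : (algebraMap K (FA K n) c ⊗ₜ[K] (1 : (FA K n)ᵐᵒᵖ) : RR K n) =
        algebraMap K (RR K n) c := rfl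
    rw [h2, ← Algebra.smul_def, ← Algebra.smul_def]
    rfl
  | grade1 j =>
    intro m x
    have h : TT (K := K) i (FreeAlgebra.ι K j) = gen i j := by
      unfold TT
      rw [FreeAlgebra.lift_ι_apply]
    have hd : dd (K := K) i (FreeAlgebra.ι K j) = (if i = j then (1 : K) else 0) • (1 : RR K n) := by
      rw [dd_apply, h, gen_apply, mul_zero, zero_add]
      rfl
    rw [hd, h, gen_apply, mul_smul_comm, mul_one]
  | mul a b iha ihb =>
    intro m x
    have hd : dd i (a * b) = (a ⊗ₜ[K] (1 : (FA K n)ᵐᵒᵖ) : RR K n) * dd i b +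
        ((1 : FA K n) ⊗ₜ[K] op b) * dd i a := by
      rw [dd_apply, map_mul, Module.End.mul_apply, ihb, iha]
      simp only [mul_zero, zero_add, mul_one]
      congr 1
      congr 1
      have : ((1 : FA K n) ⊗ₜ[K] op (1 : FA K n) : RR K n) = 1 := rfl
      rw [this, one_mul]
    rw [map_mul, Module.End.mul_apply, ihb, iha, hd]
    refine Prod.ext ?_ ?_
    · simp only [mul_add, ← mul_assoc, Algebra.TensorProduct.tmul_mul_tmul, mul_one, one_mul,
        ← op_mul, add_assoc]
    · simp only [mul_assoc]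
  | add a b iha ihb =>
    intro m x
    rw [map_add, LinearMap.add_apply, iha, ihb, map_add]
    refine Prod.ext ?_ ?_
    · simp only [Prod.fst_add, TensorProduct.add_tmul, add_mul, mul_add]
      abel
    · simp only [Prod.snd_add, add_mul]

theorem isD : IsD (K := K) (n := n) dd := by
  refine ⟨?_, ?_⟩
  · intro i j
    have h : TT (K := K) i (FreeAlgebra.ι K j) = gen i j := by
      unfold TT
      rw [FreeAlgebra.lift_ι_apply]
    rw [dd_apply, h, gen_apply, mul_zero, zero_add]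
    have : ((1 : FA K n) ⊗ₜ[K] op (1 : FA K n) : RR K n) = 1 := rfl
    rw [this]
    by_cases hij : i = j
    · simp [hij]
    · simp [hij]
  · intro i a b
    rw [dd_apply, map_mul, Module.End.mul_apply, TT_apply i b, TT_apply i a]
    have : ((1 : FA K n) ⊗ₜ[K] op (1 : FA K n) : RR K n) = 1 := rfl
    simp only [mul_zero, zero_add, mul_one, this, one_mul]
    rw [add_comm]

end

theorem partD : W875.GE.PartD.{u} := by
  intro K _ n
  exact ⟨dd, isD⟩

section

variable {K : Type u} [Field K] {n : ℕ}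

noncomputable def phi2 (φ : FA K n →ₐ[K] FA K n) : RR K n →ₐ[K] RR K n :=
  Algebra.TensorProduct.map φ (AlgHom.op φ)

theorem phi2_tmul (φ : FA K n →ₐ[K] FA K n) (a b : FA K n) :
    phi2 φ (a ⊗ₜ[K] op b) = φ a ⊗ₜ[K] op (φ b) := rfl

theorem d_one {d : Fin n → FA K n →ₗ[K] RR K n} (hd : IsD d) (i : Fin n) : d i 1 = 0 := by
  have h := hd.mul i 1 1
  have h1 : ((1 : FA K n) ⊗ₜ[K] op (1 : FA K n) : RR K n) = 1 := rfl
  have h2 : ((1 : FA K n) ⊗ₜ[K] (1 : (FA K n)ᵐᵒᵖ) : RR K n) = 1 := rfl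
  rw [h1, h2, mul_one, one_mul] at h
  exact left_eq_add.1 h

theorem chain {d : Fin n → FA K n →ₗ[K] RR K n} (hd : IsD d) (φ : FA K n →ₐ[K] FA K n)
    (i : Fin n) (a : FA K n) :
    d i (φ a) = ∑ j, phi2 φ (d j a) * d i (φ (FreeAlgebra.ι K j)) := by
  induction a using FreeAlgebra.induction with
  | grade0 c =>
    have h : ∀ k, d k (algebraMap K (FA K n) c) = 0 := by
      intro k
      rw [Algebra.algebraMap_eq_smul_one, map_smul, d_one hd, smul_zero]
    rw [AlgHom.commutes, h]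
    simp only [h, map_zero, zero_mul, Finset.sum_const_zero]
  | grade1 k =>
    have : ∀ j, phi2 φ (d j (FreeAlgebra.ι K k)) * d i (φ (FreeAlgebra.ι K j)) =
        if j = k then d i (φ (FreeAlgebra.ι K j)) else 0 := by
      intro j
      rw [hd.ι]
      by_cases h : j = k
      · simp [h]
      · simp [h]
    rw [Finset.sum_congr rfl (fun j _ => this j)]
    simp
  | mul a b iha ihb =>
    rw [map_mul, hd.mul, iha, ihb, Finset.mul_sum, Finset.mul_sum, ← Finset.sum_add_distrib]
    refine Finset.sum_congr rfl fun j _ => ?_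
    rw [hd.mul, map_add, map_mul, map_mul]
    have h1 : phi2 φ ((1 : FA K n) ⊗ₜ[K] op b) = (1 : FA K n) ⊗ₜ[K] op (φ b) := by
      rw [phi2_tmul, map_one]
    have h2 : phi2 φ (a ⊗ₜ[K] (1 : (FA K n)ᵐᵒᵖ)) = φ a ⊗ₜ[K] (1 : (FA K n)ᵐᵒᵖ) := by
      have := phi2_tmul φ a 1
      rw [map_one] at this
      exact this
    rw [h1, h2, add_mul, mul_assoc, mul_assoc]
  | add a b iha ihb =>
    rw [map_add, map_add, iha, ihb, ← Finset.sum_add_distrib]
    refine Finset.sum_congr rfl fun j _ => ?_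
    rw [map_add, map_add, add_mul]

theorem jac_mul {d : Fin n → FA K n →ₗ[K] RR K n} (hd : IsD d) (φ ψ : FA K n →ₐ[K] FA K n)
    (h : ∀ a, φ (ψ a) = a) :
    (Jac d ψ).map (phi2 φ) * Jac d φ = 1 := by
  ext k i
  rw [Matrix.mul_apply]
  have h1 := chain hd φ i (ψ (FreeAlgebra.ι K k))
  rw [h, hd.ι] at h1
  have h2 : (1 : Matrix (Fin n) (Fin n) (RR K n)) k i = if i = k then 1 else 0 := by
    rw [Matrix.one_apply]
    by_cases hk : k = i
    · rw [if_pos hk, if_pos hk.symm]
    · rw [if_neg hk, if_neg (fun h => hk h.symm)]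
  rw [h2, h1]
  rfl

end

theorem partD2 : W875.GE.PartD2.{u} := by
  intro K _ n d hd α
  have h1 := jac_mul hd α.toAlgHom α.symm.toAlgHom (fun a => α.apply_symm_apply a)
  have h2 := jac_mul hd α.symm.toAlgHom α.toAlgHom (fun a => α.symm_apply_apply a)
  have h3 : Jac d α.toAlgHom * (Jac d α.symm.toAlgHom).map (phi2 α.toAlgHom) = 1 := by
    have h4 := congrArg (fun M : Matrix (Fin n) (Fin n) (RR K n) => M.map (phi2 α.toAlgHom)) h2
    beta_reduce at h4
    have h5 : ∀ z : RR K n, phi2 α.toAlgHom (phi2 α.symm.toAlgHom z) = z := by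
      intro z
      have : (phi2 (K := K) (n := n) α.toAlgHom).comp (phi2 α.symm.toAlgHom) = AlgHom.id K _ := by
        apply Algebra.TensorProduct.ext'
        intro a b
        induction b using MulOpposite.rec' with
        | h b =>
          rw [AlgHom.comp_apply, phi2_tmul, phi2_tmul]
          simp
      exact AlgHom.congr_fun this z
    have h6 : ((Jac d α.toAlgHom).map (phi2 α.symm.toAlgHom) * Jac d α.symm.toAlgHom).map
        (phi2 α.toAlgHom) =
        ((Jac d α.toAlgHom).map (phi2 α.symm.toAlgHom)).map (phi2 α.toAlgHom) *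
          (Jac d α.symm.toAlgHom).map (phi2 α.toAlgHom) :=
      Matrix.map_mul (f := (phi2 (K := K) (n := n) α.toAlgHom : RR K n →+* RR K n))
    rw [h6] at h4
    have h7 : ((Jac d α.toAlgHom).map (phi2 α.symm.toAlgHom)).map (phi2 α.toAlgHom) =
        Jac d α.toAlgHom := by
      ext i j
      exact h5 _
    rw [h7] at h4
    rw [h4]
    exact Matrix.map_one _ (map_zero _) (map_one _)
  exact ⟨⟨_, _, h3, h1⟩, rfl⟩

end Pool.Agent.W174.GE
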